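import Mathlib

/-!
Relations between the rows of a polynomial matrix: a generalised inverse `A C A = D A` gives the
relations `A C - D`.
-/

namespace Helper35.BallK

open MvPolynomial

/-- Generalised inverse of a matrix over a field. -/
lemma exists_ginv {F J κ : Type*} [Field F] [Fintype J] [DecidableEq J] [Fintype κ]
    [DecidableEq κ] (A : Matrix J κ F) : ∃ B : Matrix κ J F, A * B * A = A := by
  set f := Matrix.toLin' A with hf
  obtain ⟨g0, hg0⟩ := f.rangeRestrict.exists_rightInverse_of_surjective f.range_rangeRestrict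
  obtain ⟨g, hg⟩ := g0.exists_extend
  refine ⟨LinearMap.toMatrix' g, ?_⟩
  apply Matrix.toLin'.injective
  rw [Matrix.toLin'_mul, Matrix.toLin'_mul, Matrix.toLin'_toMatrix', ← hf]
  ext1 i
  ext1
  simp only [LinearMap.comp_apply]
  have h1 : g (f (LinearMap.single F (fun _ => F) i 1)) = g0 (f.rangeRestrict
      (LinearMap.single F (fun _ => F) i 1)) := by
    rw [← hg]
    rfl
  have h2 := congrArg (fun T => (T (f.rangeRestrict (LinearMap.single F (fun _ => F) i 1)) :
    LinearMap.range f)) hg0
  have h3 := congrArg Subtype.val h2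
  rw [h1]
  exact h3

/-- Generalised inverse over a domain, up to a denominator. -/
lemma exists_ginv_domain {R J κ : Type*} [CommRing R] [IsDomain R] [Fintype J] [Fintype κ]
    (A : J → κ → R) : ∃ (D : R) (c : κ → J → R), D ≠ 0 ∧
      ∀ l k', ∑ j, ∑ k, A l k * c k j * A j k' = D * A l k' := by
  classical
  obtain ⟨B, hB⟩ := exists_ginv (Matrix.of fun j k => algebraMap R (FractionRing R) (A j k))
  obtain ⟨D, hD⟩ := IsLocalization.exist_integer_multiples_of_finite (nonZeroDivisors R)
    (fun kj : κ × J => B kj.1 kj.2)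
  choose c hc using hD
  have hinj : Function.Injective (algebraMap R (FractionRing R)) :=
    IsFractionRing.injective R (FractionRing R)
  have hc' : ∀ k j, algebraMap R (FractionRing R) (c (k, j))
      = algebraMap R (FractionRing R) (D : R) * B k j := by
    intro k j
    rw [hc (k, j), Algebra.smul_def]
  refine ⟨D, fun k j => c (k, j), nonZeroDivisors.coe_ne_zero D, ?_⟩
  intro l k'
  apply hinj
  rw [map_sum, map_mul]
  simp only [map_sum, map_mul, hc']
  have h1 := congrFun (congrFun hB l) k'
  rw [Matrix.mul_apply] at h1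
  simp only [Matrix.mul_apply, Matrix.of_apply, Finset.sum_mul] at h1
  rw [← h1, Finset.mul_sum]
  refine Finset.sum_congr rfl fun j _ => ?_
  rw [Finset.mul_sum]
  refine Finset.sum_congr rfl fun k _ => ?_
  ring

/-- Relations between the rows of a polynomial matrix. -/
theorem gen_rel {σ J κ : Type*} [Fintype J] [DecidableEq J] [Fintype κ]
    (A : J → κ → MvPolynomial σ ℂ) :
    ∃ (D : MvPolynomial σ ℂ) (rel : J → J → MvPolynomial σ ℂ), D ≠ 0 ∧
      (∀ l k, ∑ j, rel l j * A j k = 0) ∧
      (∀ (v : σ → ℂ) (s : J → ℂ), (∀ k, ∑ j, s j * eval v (A j k) = 0) →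
        ∀ j, ∑ l, s l * eval v (rel l j) = -(eval v D) * s j) := by
  obtain ⟨D, c, hD, hkey⟩ := exists_ginv_domain A
  refine ⟨D, fun l j => (∑ k, A l k * c k j) - if l = j then D else 0, hD, ?_, ?_⟩
  · intro l k'
    have h := hkey l k'
    simp only [sub_mul, Finset.sum_sub_distrib, ite_mul, zero_mul, Finset.sum_mul]
    rw [h, Finset.sum_ite_eq, if_pos (Finset.mem_univ _), sub_self]
  · intro v s hs j
    have h1 : ∀ l, s l * eval v ((∑ k, A l k * c k j) - if l = j then D else 0)
        = (∑ k, s l * eval v (A l k) * eval v (c k j)) -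
          if l = j then s l * eval v D else 0 := by
      intro l
      rw [map_sub, map_sum, mul_sub, Finset.mul_sum]
      congr 1
      · exact Finset.sum_congr rfl fun k _ => by rw [map_mul]; ring
      · split_ifs
        · rfl
        · rw [map_zero, mul_zero]
    simp only [h1, Finset.sum_sub_distrib]
    rw [Finset.sum_comm, Finset.sum_ite_eq', if_pos (Finset.mem_univ _)]
    have h2 : ∀ k, ∑ l, s l * eval v (A l k) * eval v (c k j) = 0 := by
      intro k
      rw [← Finset.sum_mul, hs, zero_mul]
    simp only [h2, Finset.sum_const_zero]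
    ring

end Helper35.BallK
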