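import Mathlib

/-!
The space of relations of length `K` between the coefficient vectors is not shift invariant if
the curve `∑ μ^i v_i` has no zero on the projective line.
-/

namespace Helper35.BallK

/-- Extension of a finite sequence by zero. -/
noncomputable def extz {D : ℕ} (s : Fin (D + 1) → ℂ) (i : ℕ) : ℂ :=
  if h : i < D + 1 then s ⟨i, h⟩ else 0

lemma extz_add {D : ℕ} (s t : Fin (D + 1) → ℂ) (i : ℕ) :
    extz (s + t) i = extz s i + extz t i := by
  unfold extz
  split_ifs
  · rfl
  · simp

lemma extz_smul {D : ℕ} (a : ℂ) (s : Fin (D + 1) → ℂ) (i : ℕ) :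
    extz (a • s) i = a * extz s i := by
  unfold extz
  split_ifs
  · rfl
  · simp

lemma extz_of_le {D : ℕ} (s : Fin (D + 1) → ℂ) {i : ℕ} (hi : i ≤ D) :
    extz s i = s ⟨i, Nat.lt_succ_of_le hi⟩ := dif_pos (Nat.lt_succ_of_le hi)

lemma extz_cons_zero {D : ℕ} (a : ℂ) (s : Fin D → ℂ) :
    extz (Fin.cons a s : Fin (D + 1) → ℂ) 0 = a := by
  rw [extz_of_le _ (Nat.zero_le _)]
  rfl

lemma extz_cons_succ {D : ℕ} (a : ℂ) (s : Fin (D + 1) → ℂ) {i : ℕ} (hi : i + 1 ≤ D) :
    extz (Fin.cons a (fun i : Fin D => s i.castSucc) : Fin (D + 1) → ℂ) (i + 1) = extz s i := by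
  rw [extz_of_le _ hi, extz_of_le s (by omega)]
  rfl

/-- The numerical shift lemma for relations of length `K`. -/
theorem exists_shift_k {ι : Type*} [Fintype ι] {d K : ℕ} (hK : 1 ≤ K) (v : ℕ → ι → ℂ)
    (hv0 : v 0 ≠ 0) (htop : ∀ i, d < i → v i = 0)
    (hnz : ∀ μ : ℂ, ∑ i ∈ Finset.range (d + 1), μ ^ i • v i ≠ 0) (hd : v d ≠ 0)
    (hdep : ∃ s : ℕ → ℂ, (∃ j, j < d + K ∧ s j ≠ 0) ∧
      ∀ q < K, ∑ i ∈ Finset.range (d + 1), s (i + q) • v i = 0) :
    ∃ s : ℕ → ℂ, (∀ q < K, ∑ i ∈ Finset.range (d + 1), s (i + q) • v i = 0) ∧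
      (∀ i, d + K ≤ i → s i = 0) ∧
      ¬ ∃ κ : ℂ, ∑ i ∈ Finset.range (d + 1), s i • v (i + 1) = κ • v 0 := by
  classical
  by_contra hcon
  push Not at hcon
  obtain ⟨k, rfl⟩ : ∃ k, K = k + 1 := ⟨K - 1, by omega⟩
  obtain ⟨c0, hc0⟩ : ∃ c, v 0 c ≠ 0 := by
    by_contra h
    push Not at h
    exact hv0 (funext h)
  -- the space of relations of length `K`
  set W : Submodule ℂ (Fin (d + k + 1) → ℂ) :=
    { carrier := {s | ∀ q < k + 1, ∑ i ∈ Finset.range (d + 1), extz s (i + q) • v i = 0}
      add_mem' := by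
        intro s t hs ht q hq
        simp only [extz_add, add_smul, Finset.sum_add_distrib]
        rw [hs q hq, ht q hq, add_zero]
      zero_mem' := by
        intro q _
        refine Finset.sum_eq_zero fun i _ => ?_
        have : extz (0 : Fin (d + k + 1) → ℂ) (i + q) = 0 := by
          unfold extz
          split_ifs <;> rfl
        rw [this, zero_smul]
      smul_mem' := by
        intro a s hs q hq
        simp only [extz_smul, mul_smul]
        rw [← Finset.smul_sum, hs q hq, smul_zero] } with hW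
  have hmemW : ∀ s, s ∈ W ↔ ∀ q < k + 1,
      ∑ i ∈ Finset.range (d + 1), extz s (i + q) • v i = 0 := fun s => Iff.rfl
  set κ : (Fin (d + k + 1) → ℂ) →ₗ[ℂ] ℂ :=
    { toFun := fun s => (v 0 c0)⁻¹ * ∑ i ∈ Finset.range (d + 1), extz s i * v (i + 1) c0
      map_add' := by
        intro s t
        simp only [extz_add, add_mul, Finset.sum_add_distrib, mul_add]
      map_smul' := by
        intro a s
        simp only [extz_smul, RingHom.id_apply, smul_eq_mul, mul_assoc]
        rw [← Finset.mul_sum]
        ring } with hκ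
  have hκa : ∀ s, κ s = (v 0 c0)⁻¹ * ∑ i ∈ Finset.range (d + 1), extz s i * v (i + 1) c0 :=
    fun s => rfl
  have hker : ∀ s ∈ W, ∑ i ∈ Finset.range (d + 1), extz s i • v (i + 1) = κ s • v 0 := by
    intro s hs
    obtain ⟨a, ha⟩ := hcon (extz s) hs (fun i hi => dif_neg (by omega))
    have h3 : κ s = a := by
      rw [hκa]
      have h4 := congrFun ha c0
      rw [Finset.sum_apply] at h4
      simp only [Pi.smul_apply, smul_eq_mul] at h4
      rw [h4]
      field_simp
    rw [ha, h3]
  set τ : (Fin (d + k + 1) → ℂ) →ₗ[ℂ] (Fin (d + k + 1) → ℂ) :=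
    { toFun := fun s => Fin.cons (-κ s) (fun i : Fin (d + k) => s i.castSucc)
      map_add' := by
        intro s s'
        funext i
        refine Fin.cases ?_ (fun i => ?_) i
        · simp
          ring
        · simp
      map_smul' := by
        intro a s
        funext i
        refine Fin.cases ?_ (fun i => ?_) i
        · simp
        · simp } with hτ
  have hτa : ∀ s, τ s = Fin.cons (-κ s) (fun i : Fin (d + k) => s i.castSucc) := fun s => rfl
  have hτ0 : ∀ s, extz (τ s) 0 = -κ s := by
    intro s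
    rw [hτa]
    exact extz_cons_zero _ _
  have hτs : ∀ s i, i + 1 ≤ d + k → extz (τ s) (i + 1) = extz s i := by
    intro s i hi
    rw [hτa]
    exact extz_cons_succ _ _ hi
  have hinv : ∀ s ∈ W, τ s ∈ W := by
    intro s hs
    rw [hmemW]
    intro q hq
    obtain _ | q := q
    · rw [Finset.sum_range_succ']
      simp only [add_zero, hτ0]
      have h1 := hker s hs
      rw [Finset.sum_range_succ, htop (d + 1) (by omega), smul_zero, add_zero] at h1
      have h2 : ∑ i ∈ Finset.range d, extz (τ s) (i + 1) • v (i + 1)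
          = ∑ i ∈ Finset.range d, extz s i • v (i + 1) := by
        refine Finset.sum_congr rfl fun i hi => ?_
        have := Finset.mem_range.1 hi
        rw [hτs s i (by omega)]
      rw [h2, h1, neg_smul, add_neg_cancel]
    · have h1 := hs q (by omega)
      rw [← h1]
      refine Finset.sum_congr rfl fun i hi => ?_
      have := Finset.mem_range.1 hi
      rw [← add_assoc, hτs s (i + q) (by omega)]
  have hnt : Nontrivial W := by
    obtain ⟨s, ⟨j, hj, hsj⟩, hsq⟩ := hdep
    rw [Submodule.nontrivial_iff_ne_bot]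
    intro h0
    have h1 : ∀ i ≤ d + k, extz (fun i : Fin (d + k + 1) => s i) i = s i := by
      intro i hi
      rw [extz_of_le _ hi]
    have h2 : (fun i : Fin (d + k + 1) => s i) ∈ W := by
      rw [hmemW]
      intro q hq
      rw [← hsq q hq]
      refine Finset.sum_congr rfl fun i hi => ?_
      have := Finset.mem_range.1 hi
      rw [h1 (i + q) (by omega)]
    rw [h0, Submodule.mem_bot] at h2
    apply hsj
    exact congrFun h2 ⟨j, by omega⟩
  obtain ⟨lam, hlam⟩ := Module.End.exists_eigenvalue (τ.restrict hinv)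
  obtain ⟨s, hs⟩ := hlam.exists_hasEigenvector
  have hs1 : τ s = lam • (s : Fin (d + k + 1) → ℂ) := congrArg Subtype.val hs.apply_eq_smul
  have hs0 : (s : Fin (d + k + 1) → ℂ) ≠ 0 := fun h => hs.2 (Subtype.ext h)
  have hsW : (s : Fin (d + k + 1) → ℂ) ∈ W := s.2
  generalize (s : Fin (d + k + 1) → ℂ) = s at hs1 hs0 hsW
  have hrec : ∀ j i, i + j = d + k → extz s i = lam ^ j * extz s (d + k) := by
    intro j
    induction j with
    | zero =>
      intro i hi
      obtain rfl : i = d + k := by simpa using hi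
      rw [pow_zero, one_mul]
    | succ j ih =>
      intro i hi
      have h1 := hτs s i (by omega)
      rw [hs1, extz_smul, ih (i + 1) (by omega)] at h1
      rw [← h1, pow_succ]
      ring
  have hlast : extz s (d + k) ≠ 0 := by
    intro h0
    apply hs0
    funext i
    have h1 := hrec (d + k - i) i (by have := i.2; omega)
    rw [extz_of_le s (Nat.lt_succ_iff.1 i.2), h0, mul_zero] at h1
    exact h1
  have hsum : ∑ i ∈ Finset.range (d + 1), lam ^ (d - i) • v i = 0 := by
    have h1 : extz s (d + k) • ∑ i ∈ Finset.range (d + 1), lam ^ (d - i) • v i = 0 := by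
      rw [Finset.smul_sum, ← hsW k (by omega)]
      refine Finset.sum_congr rfl fun i hi => ?_
      have := Finset.mem_range.1 hi
      rw [hrec (d - i) (i + k) (by omega), smul_smul, mul_comm]
    exact (smul_eq_zero.1 h1).resolve_left hlast
  by_cases hl : lam = 0
  · rw [Finset.sum_range_succ, Finset.sum_eq_zero] at hsum
    · simp only [Nat.sub_self, pow_zero, one_smul, zero_add] at hsum
      exact hd hsum
    · intro i hi
      rw [hl, zero_pow (by have := Finset.mem_range.1 hi; omega), zero_smul]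
  · apply hnz lam⁻¹
    have h1 : (lam ^ d) • ∑ i ∈ Finset.range (d + 1), lam⁻¹ ^ i • v i = 0 := by
      rw [Finset.smul_sum, ← hsum]
      refine Finset.sum_congr rfl fun i hi => ?_
      rw [smul_smul]
      congr 1
      have hid : i ≤ d := Nat.lt_succ_iff.1 (Finset.mem_range.1 hi)
      rw [inv_pow, ← div_eq_mul_inv, pow_sub₀ _ hl hid, div_eq_mul_inv]
    exact (smul_eq_zero.1 h1).resolve_left (pow_ne_zero _ hl)

end Helper35.BallK
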