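import Pool.Agent.Helper62.DA.Comb
import Pool.Agent.Helper64.DG.Macaulay

/-!
The combinatorial inequalities for the exponent sets.
-/

namespace Helper35.BallK

open Finset

theorem isoOne : IsoOne := by
  intro m j A B hAB hA hc
  obtain _ | d := m
  · have h1 : A.card ≤ B.card := card_le_card hAB
    rw [show 0 + 1 + j = 1 + j by ring]
    exact Nat.mul_le_mul_left _ h1
  · have := Helper64.DG.F1 j (⟨hAB, hA⟩ : Helper64.DG.IsoPair A B) hc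
    exact this

theorem isoTwo : IsoTwo := by
  intro m K A B hAB hA hm hK hc
  obtain _ | d := m
  · omega
  · have := Helper64.DG.F2 K (⟨hAB, hA⟩ : Helper64.DG.IsoPair A B) hc
    rwa [show d + 1 + K - 1 = d + K by omega]

/-- The exponent sets: first inequality. -/
theorem sum_card_le {M K : ℕ} (T : ℕ → Finset (Fin (M + 1) → ℕ))
    (hT : ∀ k, ∀ μ ∈ T (k + 1), ∃ ν, μ = ν + Pi.single 0 1 ∧ ν ∈ T k ∧
      ∀ i, ν + Pi.single i 1 ∈ T k)
    (h0 : (T 0).card ≤ (M + 1 + K).choose (M + 1)) (p : ℕ) :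
    (M + 2) * ∑ k ∈ range p, (T k).card ≤ (M + 2 + K) * (T 0).card :=
  growth_one isoOne isoTwo T hT h0 p

/-- The exponent sets: second inequality. -/
theorem sum_card_le_card {M K : ℕ} (T : ℕ → Finset (Fin (M + 1) → ℕ))
    (hT : ∀ k, ∀ μ ∈ T (k + 1), ∃ ν, μ = ν + Pi.single 0 1 ∧ ν ∈ T k ∧
      ∀ i, ν + Pi.single i 1 ∈ T k)
    (h0 : (T 0).card ≤ (M + 1 + K).choose (M + 1)) (hK : 2 * (K + 1) * (K + 2) ≤ M + 2)
    (E : Finset (Fin M → ℕ))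
    (hE : ∀ μ ∈ T 1, ∀ α : Fin M → ℕ, ∑ i, α i ≤ μ 0 →
      (∃ i j, i ≠ j ∧ α i ≠ 0 ∧ α j ≠ 0) → (fun i => μ i.succ + α i) ∈ E)
    (hc : ∀ μ ∈ T 1, 2 ≤ μ 0) (p : ℕ) :
    (M + 1) * ∑ k ∈ range p, (T (k + 1)).card ≤ E.card :=
  growth_two isoOne isoTwo T hT h0 hK E hE hc p

end Helper35.BallK
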