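import Pool.Agent.Helper62.DA.ShiftK

/-!
Summation over the lengths of the relations between the coefficient vectors.
-/

namespace Helper35.BallK

open Finset

/-- The numerical summation lemma. -/
theorem numeric_sum {ι : Type*} [Fintype ι] {d k0 : ℕ} (v : ℕ → ι → ℂ) (hv0 : v 0 ≠ 0)
    (htop : ∀ i, d < i → v i = 0)
    (hnz : ∀ μ : ℂ, ∑ i ∈ range (d + 1), μ ^ i • v i ≠ 0) (hd : v d ≠ 0) (τ : ℕ → ℕ)
    (hτ : ∀ k ≤ k0, ∀ (q : ℕ) (s : Fin q → ℕ → ℂ),
      (∀ j, ∀ p < k, ∑ i ∈ range (d + 1), s j (i + p) • v i = 0) →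
      (∀ j i, d + k ≤ i → s j i = 0) →
      (∀ b : Fin q → ℂ, (∃ κ : ℂ, ∑ j, b j • ∑ i ∈ range (d + 1), s j i • v (i + 1)
        = κ • v 0) → b = 0) → q ≤ τ k)
    (hk0 : 1 ≤ k0) (hτ0 : τ k0 = 0) : d ≤ ∑ k ∈ range k0, τ k := by
  classical
  -- the spaces of relations
  let W : ℕ → Submodule ℂ (ℕ → ℂ) := fun k =>
    { carrier := {s | (∀ p < k, ∑ i ∈ range (d + 1), s (i + p) • v i = 0) ∧
        ∀ i, d + k ≤ i → s i = 0}
      add_mem' := by
        intro s t hs ht
        refine ⟨fun p hp => ?_, fun i hi => ?_⟩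
        · simp only [Pi.add_apply, add_smul, sum_add_distrib]
          rw [hs.1 p hp, ht.1 p hp, add_zero]
        · rw [Pi.add_apply, hs.2 i hi, ht.2 i hi, add_zero]
      zero_mem' := by
        refine ⟨fun p hp => ?_, fun i hi => rfl⟩
        refine sum_eq_zero fun i _ => ?_
        rw [Pi.zero_apply, zero_smul]
      smul_mem' := by
        intro a s hs
        refine ⟨fun p hp => ?_, fun i hi => ?_⟩
        · simp only [Pi.smul_apply, smul_eq_mul, mul_smul]
          rw [← smul_sum, hs.1 p hp, smul_zero]
        · rw [Pi.smul_apply, hs.2 i hi, smul_zero] }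
  have hmem : ∀ k s, s ∈ W k ↔ (∀ p < k, ∑ i ∈ range (d + 1), s (i + p) • v i = 0) ∧
      ∀ i, d + k ≤ i → s i = 0 := fun k s => Iff.rfl
  -- restriction to finitely many coordinates
  have hfin : ∀ k, FiniteDimensional ℂ (W k) := by
    intro k
    let ρ : (ℕ → ℂ) →ₗ[ℂ] (Fin (d + k) → ℂ) := LinearMap.funLeft ℂ ℂ (fun i : Fin (d + k) => (i : ℕ))
    refine Module.Finite.of_injective (ρ.domRestrict (W k)) ?_
    intro s t hst
    apply Subtype.ext
    funext i
    by_cases hi : i < d + k
    · exact congrFun hst ⟨i, hi⟩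
    · rw [(s.2).2 i (by omega), (t.2).2 i (by omega)]
  -- dimension at length zero
  have h0 : d ≤ Module.finrank ℂ (W 0) := by
    let ε : (Fin d → ℂ) →ₗ[ℂ] W 0 :=
      { toFun := fun s => ⟨fun i => if h : i < d then s ⟨i, h⟩ else 0,
          ⟨fun p hp => absurd hp (Nat.not_lt_zero p), fun i hi => dif_neg (by omega)⟩⟩
        map_add' := by
          intro s t
          apply Subtype.ext
          funext i
          by_cases h : i < d
          · simp [h]
          · simp [h]
        map_smul' := by
          intro a s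
          apply Subtype.ext
          funext i
          by_cases h : i < d
          · simp [h]
          · simp [h] }
    have hinj : Function.Injective ε := by
      intro s t hst
      funext i
      have h1 := congrFun (congrArg Subtype.val hst) (i : ℕ)
      have h2 : ∀ s : Fin d → ℂ, (ε s : ℕ → ℂ) (i : ℕ) = s i := by
        intro s
        exact dif_pos i.2
      rw [h2, h2] at h1
      exact h1
    have := hfin 0
    have h3 := LinearMap.finrank_le_finrank_of_injective hinj
    simpa using h3
  -- dimension at length k0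
  have hlast : Module.finrank ℂ (W k0) = 0 := by
    rw [Submodule.finrank_eq_zero]
    by_contra hne
    obtain ⟨s, hs, hs0⟩ := (Submodule.ne_bot_iff _).1 hne
    have h1 : ∃ j, j < d + k0 ∧ s j ≠ 0 := by
      by_contra hall
      push Not at hall
      apply hs0
      funext j
      by_cases hj : j < d + k0
      · exact hall j hj
      · exact hs.2 j (by omega)
    obtain ⟨t, ht1, ht2, ht3⟩ := exists_shift_k hk0 v hv0 htop hnz hd ⟨s, h1, hs.1⟩
    have h2 := hτ k0 le_rfl 1 (fun _ => t) (fun _ => ht1) (fun _ => ht2) (by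
      rintro b ⟨κ, hκ⟩
      rw [Fin.sum_univ_one] at hκ
      funext j
      rw [Fin.eq_zero j, Pi.zero_apply]
      by_contra hb
      apply ht3
      refine ⟨(b 0)⁻¹ * κ, ?_⟩
      rw [mul_smul, ← hκ, smul_smul, inv_mul_cancel₀ hb, one_smul])
    omega
  -- the step
  have hstep : ∀ k, k < k0 → Module.finrank ℂ (W k) ≤ Module.finrank ℂ (W (k + 1)) + τ k := by
    intro k hk
    have := hfin k
    have := hfin (k + 1)
    let φ : (ℕ → ℂ) →ₗ[ℂ] (ι → ℂ) :=
      { toFun := fun s => ∑ i ∈ range (d + 1), s i • v (i + 1)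
        map_add' := by
          intro s t
          simp only [Pi.add_apply, add_smul, sum_add_distrib]
        map_smul' := by
          intro a s
          simp only [Pi.smul_apply, smul_eq_mul, mul_smul, RingHom.id_apply]
          rw [← smul_sum] }
    have hφ : ∀ s, φ s = ∑ i ∈ range (d + 1), s i • v (i + 1) := fun s => rfl
    let ψ : (ℕ → ℂ) →ₗ[ℂ] ((ι → ℂ) ⧸ Submodule.span ℂ {v 0}) :=
      (Submodule.mkQ (Submodule.span ℂ {v 0})).comp φ
    have hψ : ∀ s, ψ s = Submodule.Quotient.mk (φ s) := fun s => rfl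
    have hψ0 : ∀ s, ψ s = 0 ↔ ∃ κ : ℂ, φ s = κ • v 0 := by
      intro s
      rw [hψ, Submodule.Quotient.mk_eq_zero, Submodule.mem_span_singleton]
      constructor
      · rintro ⟨κ, hκ⟩
        exact ⟨κ, hκ.symm⟩
      · rintro ⟨κ, hκ⟩
        exact ⟨κ, hκ.symm⟩
    have hrn := LinearMap.finrank_range_add_finrank_ker (ψ.domRestrict (W k))
    -- the rank
    have hrk : Module.finrank ℂ (LinearMap.range (ψ.domRestrict (W k))) ≤ τ k := by
      let bas := Module.finBasis ℂ (LinearMap.range (ψ.domRestrict (W k)))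
      have hpre : ∀ j, ∃ s : W k, ψ.domRestrict (W k) s = (bas j : (ι → ℂ) ⧸ Submodule.span ℂ {v 0}) :=
        fun j => LinearMap.mem_range.1 (bas j).2
      choose s hs using hpre
      refine hτ k hk.le _ (fun j => (s j : ℕ → ℂ)) (fun j => (s j).2.1) (fun j => (s j).2.2) ?_
      rintro b ⟨κ, hκ⟩
      have h1 : ∑ j, b j • bas j = 0 := by
        apply Subtype.ext
        rw [Submodule.coe_sum, Submodule.coe_zero]
        have h2 : ψ (∑ j, b j • (s j : ℕ → ℂ)) = 0 := by
          rw [hψ0]
          refine ⟨κ, ?_⟩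
          rw [← hκ, map_sum]
          refine sum_congr rfl fun j _ => ?_
          rw [map_smul, hφ]
        rw [← h2, map_sum]
        refine sum_congr rfl fun j _ => ?_
        rw [map_smul, Submodule.coe_smul, ← hs j, LinearMap.domRestrict_apply]
      have h3 := Fintype.linearIndependent_iff.1 bas.linearIndependent b h1
      funext j
      exact h3 j
    -- the kernel
    have hker : Module.finrank ℂ (LinearMap.ker (ψ.domRestrict (W k)))
        ≤ Module.finrank ℂ (W (k + 1)) := by
      rw [← Submodule.finrank_map_subtype_eq]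
      let σ : (ℕ → ℂ) →ₗ[ℂ] (ℕ → ℂ) := LinearMap.funLeft ℂ ℂ (fun i : ℕ => i + 1)
      have hσ : ∀ s i, σ s i = s (i + 1) := fun s i => rfl
      have hle : (LinearMap.ker (ψ.domRestrict (W k))).map (W k).subtype
          ≤ (W (k + 1)).map σ := by
        rintro _ ⟨s, hs, rfl⟩
        have hs1 : ψ (s : ℕ → ℂ) = 0 := LinearMap.mem_ker.1 hs
        obtain ⟨κ, hκ⟩ := (hψ0 _).1 hs1
        rw [hφ] at hκ
        refine ⟨fun i => if i = 0 then -κ else (s : ℕ → ℂ) (i - 1), ?_, ?_⟩
        · refine (hmem _ _).2 ⟨fun p hp => ?_, fun i hi => ?_⟩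
          · obtain _ | p := p
            · rw [sum_range_succ']
              simp only [add_zero, Nat.add_eq_zero_iff, one_ne_zero, and_false, if_false,
                if_true, Nat.add_sub_cancel]
              rw [sum_range_succ, htop (d + 1) (by omega), smul_zero, add_zero] at hκ
              rw [hκ, neg_smul, add_neg_cancel]
            · have h1 := s.2.1 p (by omega)
              rw [← h1]
              refine sum_congr rfl fun i _ => ?_
              rw [if_neg (by omega)]
              rfl
          · show (if i = 0 then -κ else (s : ℕ → ℂ) (i - 1)) = 0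
            rw [if_neg (by omega)]
            exact s.2.2 (i - 1) (by omega)
        · funext i
          rw [hσ]
          simp
      calc Module.finrank ℂ ((LinearMap.ker (ψ.domRestrict (W k))).map (W k).subtype)
          ≤ Module.finrank ℂ ((W (k + 1)).map σ) := Submodule.finrank_mono hle
        _ ≤ Module.finrank ℂ (W (k + 1)) := Submodule.finrank_map_le σ (W (k + 1))
    omega
  have hall : ∀ k, k ≤ k0 →
      Module.finrank ℂ (W 0) ≤ Module.finrank ℂ (W k) + ∑ i ∈ range k, τ i := by
    intro k
    induction k with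
    | zero => simp
    | succ k ih =>
      intro hk
      rw [sum_range_succ]
      have h1 := hstep k (by omega)
      have h2 := ih (by omega)
      omega
  have := hall k0 le_rfl
  omega

end Helper35.BallK
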