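import Mathlib

/-!
Counting exponents: the homogeneous form of the isoperimetric inequality and the final
combinatorial inequality.
-/

namespace Helper35.BallK

open Finset

/-- The isoperimetric inequality (piecewise linear form, first consequence). -/
def IsoOne : Prop := ∀ (m j : ℕ) (A B : Finset (Fin m → ℕ)), A ⊆ B →
  (∀ a ∈ A, ∀ i, a + Pi.single i 1 ∈ B) → A.card ≤ (m + j).choose m →
  (m + 1 + j) * A.card ≤ (1 + j) * B.card

/-- The isoperimetric inequality, second consequence. -/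
def IsoTwo : Prop := ∀ (m K : ℕ) (A B : Finset (Fin m → ℕ)), A ⊆ B →
  (∀ a ∈ A, ∀ i, a + Pi.single i 1 ∈ B) → 1 ≤ m → 1 ≤ K → B.card ≤ (m + K).choose m →
  A.card ≤ (m + K - 1).choose m

/-- The homogeneous form. -/
theorem homog_one (h1 : IsoOne) {M j : ℕ} (A B : Finset (Fin (M + 1) → ℕ))
    (h : ∀ a ∈ A, ∀ i, a + Pi.single i 1 ∈ B) (hA : A.card ≤ (M + j).choose M) :
    (M + 1 + j) * A.card ≤ (1 + j) * B.card := by
  classical
  let deg : (Fin (M + 1) → ℕ) → ℕ := fun a => ∑ i, a i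
  have hdeg : ∀ a, deg a = ∑ i, a i := fun a => rfl
  have hdeg' : ∀ a, deg a = a 0 + ∑ i : Fin M, a i.succ := fun a => by
    rw [hdeg, Fin.sum_univ_succ]
  let tl : (Fin (M + 1) → ℕ) → (Fin M → ℕ) := fun a i => a i.succ
  have htl : ∀ a i, tl a i = a i.succ := fun a i => rfl
  let N : ℕ := (A.sup deg) + (B.sup deg) + 1
  have hNA : ∀ a ∈ A, deg a < N := fun a ha => by
    have := Finset.le_sup (f := deg) ha
    omega
  have hNB : ∀ a ∈ B, deg a < N + 1 := fun a ha => by
    have := Finset.le_sup (f := deg) ha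
    omega
  have hsumA : A.card = ∑ D ∈ range N, (A.filter (fun a => deg a = D)).card :=
    Finset.card_eq_sum_card_fiberwise (fun a ha => by simpa using hNA a ha)
  have hsumB : B.card = ∑ D ∈ range (N + 1), (B.filter (fun a => deg a = D)).card :=
    Finset.card_eq_sum_card_fiberwise (fun a ha => by simpa using hNB a ha)
  have hstep : ∀ D, (M + 1 + j) * (A.filter (fun a => deg a = D)).card
      ≤ (1 + j) * (B.filter (fun a => deg a = D + 1)).card := by
    intro D
    have hinj : Set.InjOn tl (A.filter (fun a => deg a = D)) := by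
      intro a ha b hb hab
      have ha2 : deg a = D := (mem_filter.1 ha).2
      have hb2 : deg b = D := (mem_filter.1 hb).2
      rw [hdeg'] at ha2 hb2
      have h3 : ∑ i : Fin M, a i.succ = ∑ i : Fin M, b i.succ :=
        sum_congr rfl fun i _ => congrFun hab i
      funext i
      refine Fin.cases ?_ (fun i => ?_) i
      · omega
      · exact congrFun hab i
    have hA' : ((A.filter (fun a => deg a = D)).image tl).card
        = (A.filter (fun a => deg a = D)).card := card_image_of_injOn hinj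
    have hB' : ((B.filter (fun a => deg a = D + 1)).image tl).card
        ≤ (B.filter (fun a => deg a = D + 1)).card := card_image_le
    have hs : ∀ (a : Fin (M + 1) → ℕ) (i : Fin (M + 1)), deg (a + Pi.single i 1) = deg a + 1 := by
      intro a i
      rw [hdeg, hdeg]
      simp only [Pi.add_apply, sum_add_distrib]
      rw [Finset.sum_pi_single' i 1 univ]
      simp
    have hmemB : ∀ a ∈ A.filter (fun a => deg a = D), ∀ i,
        a + Pi.single i 1 ∈ B.filter (fun a => deg a = D + 1) := by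
      intro a ha i
      rw [mem_filter] at ha ⊢
      exact ⟨h a ha.1 i, by rw [hs, ha.2]⟩
    have hkey := h1 M j ((A.filter (fun a => deg a = D)).image tl)
      ((B.filter (fun a => deg a = D + 1)).image tl) (by
        intro x hx
        obtain ⟨a, ha, rfl⟩ := mem_image.1 hx
        refine mem_image.2 ⟨a + Pi.single 0 1, hmemB a ha 0, ?_⟩
        funext i
        rw [htl, htl, Pi.add_apply, Pi.single_eq_of_ne (Fin.succ_ne_zero i), add_zero]) (by
        intro x hx i
        obtain ⟨a, ha, rfl⟩ := mem_image.1 hx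
        refine mem_image.2 ⟨a + Pi.single i.succ 1, hmemB a ha i.succ, ?_⟩
        funext l
        rw [htl, Pi.add_apply, Pi.add_apply, htl]
        congr 1
        by_cases hl : l = i
        · subst hl
          rw [Pi.single_eq_same, Pi.single_eq_same]
        · rw [Pi.single_eq_of_ne hl, Pi.single_eq_of_ne (fun h => hl (Fin.succ_injective _ h))])
      (by
        rw [hA']
        exact (card_filter_le _ _).trans hA)
    rw [hA'] at hkey
    exact hkey.trans (Nat.mul_le_mul_left _ hB')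
  calc (M + 1 + j) * A.card = ∑ D ∈ range N, (M + 1 + j) * (A.filter (fun a => deg a = D)).card := by
        rw [hsumA, mul_sum]
    _ ≤ ∑ D ∈ range N, (1 + j) * (B.filter (fun a => deg a = D + 1)).card :=
        sum_le_sum fun D _ => hstep D
    _ = (1 + j) * ∑ D ∈ range N, (B.filter (fun a => deg a = D + 1)).card := by rw [mul_sum]
    _ ≤ (1 + j) * B.card := by
        refine Nat.mul_le_mul_left _ ?_
        have h9 := Finset.sum_range_succ' (fun D => (B.filter (fun a => deg a = D)).card) N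
        rw [← hsumB] at h9
        rw [h9]
        exact Nat.le_add_right _ _

/-- The homogeneous form, applied twice. -/
theorem homog_two (h1 : IsoOne) {M j : ℕ} (A C : Finset (Fin (M + 1) → ℕ))
    (h : ∀ a ∈ A, ∀ i k, a + Pi.single i 1 + Pi.single k 1 ∈ C)
    (hA : A.card ≤ (M + j).choose M) :
    (M + 1 + j) * (M + 2 + j) * A.card ≤ (1 + j) * (2 + j) * C.card := by
  classical
  let A1 : Finset (Fin (M + 1) → ℕ) :=
    (A ×ˢ (univ : Finset (Fin (M + 1)))).image (fun p => p.1 + Pi.single p.2 1)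
  have hA1 : ∀ a ∈ A, ∀ i, a + Pi.single i 1 ∈ A1 := fun a ha i =>
    mem_image.2 ⟨(a, i), mem_product.2 ⟨ha, mem_univ _⟩, rfl⟩
  have hC : ∀ b ∈ A1, ∀ k, b + Pi.single k 1 ∈ C := by
    intro b hb k
    obtain ⟨⟨a, i⟩, hai, rfl⟩ := mem_image.1 hb
    exact h a (mem_product.1 hai).1 i k
  have e1 := homog_one h1 A A1 hA1 hA
  by_cases hc : A1.card ≤ (M + (j + 1)).choose M
  · have e2 := homog_one h1 A1 C hC hc
    calc (M + 1 + j) * (M + 2 + j) * A.card = (M + 2 + j) * ((M + 1 + j) * A.card) := by ring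
      _ ≤ (M + 2 + j) * ((1 + j) * A1.card) := Nat.mul_le_mul_left _ e1
      _ = (1 + j) * ((M + 1 + (j + 1)) * A1.card) := by ring
      _ ≤ (1 + j) * ((1 + (j + 1)) * C.card) := Nat.mul_le_mul_left _ e2
      _ = (1 + j) * (2 + j) * C.card := by ring
  · obtain ⟨A2, hA2, hA2c⟩ := Finset.exists_subset_card_eq (le_of_not_ge hc)
    have e2 := homog_one h1 A2 C (fun b hb k => hC b (hA2 hb) k) hA2c.le
    have e3 := Nat.add_one_mul_choose_eq (M + j) j
    have e4 : (M + j).choose j = (M + j).choose M := Nat.choose_symm_add.symm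
    have e5 : (M + j + 1).choose (j + 1) = (M + (j + 1)).choose M := by
      have : (M + (j + 1)).choose M = (M + (j + 1)).choose (j + 1) := Nat.choose_symm_add
      rw [this]
      rfl
    rw [e4, e5] at e3
    rw [hA2c] at e2
    calc (M + 1 + j) * (M + 2 + j) * A.card = (M + 2 + j) * ((M + j + 1) * A.card) := by
          ring
      _ ≤ (M + 2 + j) * ((M + j + 1) * (M + j).choose M) :=
          Nat.mul_le_mul_left _ (Nat.mul_le_mul_left _ hA)
      _ = (1 + j) * ((M + 1 + (j + 1)) * (M + (j + 1)).choose M) := by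
          rw [e3]
          ring
      _ ≤ (1 + j) * ((1 + (j + 1)) * C.card) := Nat.mul_le_mul_left _ e2
      _ = (1 + j) * (2 + j) * C.card := by ring

/-- Chains of isoperimetric pairs. -/
theorem chain_sum (h1 : IsoOne) (h2 : IsoTwo) {m : ℕ} (hm : 1 ≤ m) : ∀ (K : ℕ) (L : ℕ → ℕ),
    (∀ k, ∃ A B : Finset (Fin m → ℕ), A ⊆ B ∧ (∀ a ∈ A, ∀ i, a + Pi.single i 1 ∈ B) ∧
      A.card = L (k + 1) ∧ B.card = L k) → L 0 ≤ (m + K).choose m →
    ∀ p, (m + 1) * ∑ k ∈ range p, L k ≤ (m + 1 + K) * L 0 := by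
  intro K
  induction K with
  | zero =>
    intro L hL h0 p
    have h0' : L 0 ≤ 1 := by simpa using h0
    have hz : ∀ k, L (k + 1) = 0 := by
      intro k
      induction k with
      | zero =>
        obtain ⟨A, B, hAB, hA, hAc, hBc⟩ := hL 0
        rw [← hAc, card_eq_zero]
        by_contra hne
        obtain ⟨a, ha⟩ := nonempty_iff_ne_empty.2 hne
        have h3 := hA a ha ⟨0, hm⟩
        have h4 := card_le_one.1 (hBc.trans_le h0') _ (hAB ha) _ h3
        have h5 := congrFun h4 ⟨0, hm⟩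
        rw [Pi.add_apply, Pi.single_eq_same] at h5
        omega
      | succ k ih =>
        obtain ⟨A, B, hAB, hA, hAc, hBc⟩ := hL (k + 1)
        have := card_le_card hAB
        omega
    have h3 : ∑ k ∈ range p, L k ≤ L 0 := by
      obtain _ | p := p
      · simp
      · rw [sum_range_succ', sum_eq_zero (fun k _ => hz k), zero_add]
    exact Nat.mul_le_mul (le_refl _) h3
  | succ K ih =>
    intro L hL h0 p
    obtain ⟨A, B, hAB, hA, hAc, hBc⟩ := hL 0
    have e1 : L 1 ≤ (m + K).choose m := by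
      have := h2 m (K + 1) A B hAB hA hm (by omega) (by rw [hBc]; exact h0)
      rw [hAc] at this
      simpa using this
    have e2 : (m + 1 + K) * L 1 ≤ (1 + K) * L 0 := by
      have := h1 m K A B hAB hA (by rw [hAc]; exact e1)
      rw [hAc, hBc] at this
      exact this
    have e3 := ih (fun k => L (k + 1)) (fun k => hL (k + 1)) e1
    obtain _ | p := p
    · simp
    · have e4 := e3 p
      rw [sum_range_succ', mul_add]
      calc (m + 1) * ∑ k ∈ range p, L (k + 1) + (m + 1) * L 0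
          ≤ (1 + K) * L 0 + (m + 1) * L 0 := Nat.add_le_add_right (e4.trans e2) _
        _ = (m + 1 + (K + 1)) * L 0 := by ring

/-- The exponent sets form a chain of isoperimetric pairs. -/
theorem chain_pair {M : ℕ} (T : ℕ → Finset (Fin (M + 1) → ℕ))
    (hT : ∀ k, ∀ μ ∈ T (k + 1), ∃ ν, μ = ν + Pi.single 0 1 ∧ ν ∈ T k ∧
      ∀ i, ν + Pi.single i 1 ∈ T k) (k : ℕ) : ∃ A B : Finset (Fin (M + 1) → ℕ), A ⊆ B ∧
      (∀ a ∈ A, ∀ i, a + Pi.single i 1 ∈ B) ∧ A.card = (T (k + 1)).card ∧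
      B.card = (T k).card := by
  classical
  refine ⟨(T (k + 1)).image (fun μ => μ - Pi.single 0 1), T k, ?_, ?_, ?_, rfl⟩
  · intro x hx
    obtain ⟨μ, hμ, rfl⟩ := mem_image.1 hx
    obtain ⟨ν, rfl, h3, h4⟩ := hT k μ hμ
    rwa [add_tsub_cancel_right]
  · intro x hx i
    obtain ⟨μ, hμ, rfl⟩ := mem_image.1 hx
    obtain ⟨ν, rfl, h3, h4⟩ := hT k μ hμ
    rw [add_tsub_cancel_right]
    exact h4 i
  · refine card_image_of_injOn ?_
    intro x hx y hy hxy
    obtain ⟨ν, rfl, -⟩ := hT k x hx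
    obtain ⟨ν', rfl, -⟩ := hT k y hy
    simp only [add_tsub_cancel_right] at hxy
    rw [hxy]

/-- The first inequality. -/
theorem growth_one (h1 : IsoOne) (h2 : IsoTwo) {M K : ℕ} (T : ℕ → Finset (Fin (M + 1) → ℕ))
    (hT : ∀ k, ∀ μ ∈ T (k + 1), ∃ ν, μ = ν + Pi.single 0 1 ∧ ν ∈ T k ∧
      ∀ i, ν + Pi.single i 1 ∈ T k)
    (h0 : (T 0).card ≤ (M + 1 + K).choose (M + 1)) (p : ℕ) :
    (M + 2) * ∑ k ∈ range p, (T k).card ≤ (M + 2 + K) * (T 0).card :=
  chain_sum h1 h2 (by omega : 1 ≤ M + 1) K (fun k => (T k).card) (chain_pair T hT) h0 p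

/-- The final inequality. -/
theorem growth_two (h1 : IsoOne) (h2 : IsoTwo) {M K : ℕ} (T : ℕ → Finset (Fin (M + 1) → ℕ))
    (hT : ∀ k, ∀ μ ∈ T (k + 1), ∃ ν, μ = ν + Pi.single 0 1 ∧ ν ∈ T k ∧
      ∀ i, ν + Pi.single i 1 ∈ T k)
    (h0 : (T 0).card ≤ (M + 1 + K).choose (M + 1)) (hK : 2 * (K + 1) * (K + 2) ≤ M + 2)
    (E : Finset (Fin M → ℕ))
    (hE : ∀ μ ∈ T 1, ∀ α : Fin M → ℕ, ∑ i, α i ≤ μ 0 →
      (∃ i j, i ≠ j ∧ α i ≠ 0 ∧ α j ≠ 0) → (fun i => μ i.succ + α i) ∈ E)
    (hc : ∀ μ ∈ T 1, 2 ≤ μ 0) (p : ℕ) :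
    (M + 1) * ∑ k ∈ range p, (T (k + 1)).card ≤ E.card := by
  classical
  -- the chain of isoperimetric pairs
  have hpair := chain_pair T hT
  obtain _ | K := K
  · -- no relation of length one
    have e1 := chain_sum h1 h2 (by omega : 1 ≤ M + 1) 0 (fun k => (T k).card) hpair h0 (p + 1)
    rw [sum_range_succ', mul_add] at e1
    have e2 : (M + 1 + 1) * ∑ k ∈ range p, (T (k + 1)).card = 0 := by
      simp only [add_zero] at e1
      omega
    have e3 : ∑ k ∈ range p, (T (k + 1)).card = 0 := by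
      rcases Nat.mul_eq_zero.1 e2 with h | h
      · omega
      · exact h
    rw [e3, mul_zero]
    exact Nat.zero_le _
  obtain ⟨M, rfl⟩ : ∃ M', M = M' + 1 := ⟨M - 1, by
    have : 4 ≤ 2 * (K + 1 + 1) * (K + 1 + 2) := by nlinarith
    omega⟩
  -- size of `T 1`
  have ht1 : (T 1).card ≤ (M + 1 + 1 + K).choose (M + 1 + 1) := by
    obtain ⟨A, B, hAB, hA, hAc, hBc⟩ := hpair 0
    have := h2 (M + 1 + 1) (K + 1) A B hAB hA (by omega) (by omega) (by rw [hBc]; exact h0)
    rw [hAc] at this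
    simpa using this
  have hi := chain_sum h1 h2 (by omega : 1 ≤ M + 1 + 1) K (fun k => (T (k + 1)).card)
    (fun k => hpair (k + 1)) ht1 p
  -- the thickened slices
  let Th : ℕ → Finset (Fin (M + 1) → ℕ) := fun c => (T 1).biUnion (fun μ =>
    ((Fintype.piFinset (fun _ : Fin (M + 1) => range (μ 0 + 1))).filter
      (fun δ => ∑ i, δ i + c ≤ μ 0)).image (fun δ i => μ i.succ + δ i))
  have hTh : ∀ c x, x ∈ Th c ↔ ∃ μ ∈ T 1, ∃ δ : Fin (M + 1) → ℕ, ∑ i, δ i + c ≤ μ 0 ∧
      x = fun i => μ i.succ + δ i := by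
    intro c x
    constructor
    · intro hx
      obtain ⟨μ, hμ, hx⟩ := mem_biUnion.1 hx
      obtain ⟨δ, hδ, rfl⟩ := mem_image.1 hx
      exact ⟨μ, hμ, δ, (mem_filter.1 hδ).2, rfl⟩
    · rintro ⟨μ, hμ, δ, hδ, rfl⟩
      refine mem_biUnion.2 ⟨μ, hμ, mem_image.2 ⟨δ, mem_filter.2 ⟨?_, hδ⟩, rfl⟩⟩
      rw [Fintype.mem_piFinset]
      intro i
      have : δ i ≤ ∑ i, δ i := single_le_sum (fun _ _ => Nat.zero_le _) (mem_univ i)
      rw [mem_range]
      omega
  have hThpair : ∀ k, ∃ A B : Finset (Fin (M + 1) → ℕ), A ⊆ B ∧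
      (∀ a ∈ A, ∀ i, a + Pi.single i 1 ∈ B) ∧ A.card = (Th (k + 1 + 2)).card ∧
      B.card = (Th (k + 2)).card := by
    intro k
    refine ⟨Th (k + 1 + 2), Th (k + 2), ?_, ?_, rfl, rfl⟩
    · intro x hx
      obtain ⟨μ, hμ, δ, hδ, rfl⟩ := (hTh _ _).1 hx
      exact (hTh _ _).2 ⟨μ, hμ, δ, by omega, rfl⟩
    · intro x hx i
      obtain ⟨μ, hμ, δ, hδ, rfl⟩ := (hTh _ _).1 hx
      refine (hTh _ _).2 ⟨μ, hμ, δ + Pi.single i 1, ?_, ?_⟩
      · simp only [Pi.add_apply, sum_add_distrib]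
        rw [Finset.sum_pi_single' i 1 univ]
        simp only [mem_univ, if_true]
        omega
      · funext l
        rw [Pi.add_apply, Pi.add_apply, add_assoc]
  -- `T 1` is covered by the slices
  let P : ℕ := (T 1).sup (fun μ => μ 0) + 1
  have hcov : (T 1).card ≤ ∑ c ∈ range P, (Th (c + 2)).card := by
    have e1 : (T 1).card = ∑ c ∈ range P, ((T 1).filter (fun μ => μ 0 - 2 = c)).card := by
      refine Finset.card_eq_sum_card_fiberwise (fun μ hμ => ?_)
      have := Finset.le_sup (f := fun μ : Fin (M + 1 + 1) → ℕ => μ 0) hμ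
      simp only [coe_range, Set.mem_Iio]
      omega
    rw [e1]
    refine sum_le_sum fun c _ => ?_
    refine card_le_card_of_injOn (fun μ i => μ i.succ) ?_ ?_
    · intro μ hμ
      obtain ⟨hμ1, hμ2⟩ := mem_filter.1 hμ
      have := hc μ hμ1
      refine (hTh _ _).2 ⟨μ, hμ1, 0, ?_, ?_⟩
      · simp only [Pi.zero_apply, sum_const_zero]
        omega
      · funext i
        rw [Pi.zero_apply, add_zero]
    · intro μ hμ ν hν hμν
      obtain ⟨hμ1, hμ2⟩ := mem_filter.1 hμ
      obtain ⟨hν1, hν2⟩ := mem_filter.1 hν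
      have e2 := hc μ hμ1
      have e3 := hc ν hν1
      funext i
      refine Fin.cases ?_ (fun i => ?_) i
      · omega
      · exact congrFun hμν i
  -- the comparison of `T 1` with the second slice
  obtain ⟨L, hLV, hLs, hii⟩ : ∃ L, L ≤ (Th 2).card ∧ L ≤ (M + 1 + K).choose (M + 1) ∧
      (M + 1 + 1) * (T 1).card ≤ (M + 1 + 1 + K) * L := by
    by_cases hV : (Th 2).card ≤ (M + 1 + K).choose (M + 1)
    · refine ⟨(Th 2).card, le_rfl, hV, ?_⟩
      have := chain_sum h1 h2 (by omega : 1 ≤ M + 1) K (fun k => (Th (k + 2)).card) hThpair hV P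
      exact (Nat.mul_le_mul_left _ hcov).trans this
    · refine ⟨(M + 1 + K).choose (M + 1), le_of_not_ge hV, le_rfl, ?_⟩
      have e3 := Nat.add_one_mul_choose_eq (M + 1 + K) (M + 1)
      calc (M + 1 + 1) * (T 1).card ≤ (M + 1 + 1) * (M + 1 + 1 + K).choose (M + 1 + 1) :=
            Nat.mul_le_mul_left _ ht1
        _ = (M + 1 + K + 1).choose (M + 1 + 1) * (M + 1 + 1) := by
            rw [mul_comm, show M + 1 + 1 + K = M + 1 + K + 1 by ring]
        _ = (M + 1 + 1 + K) * (M + 1 + K).choose (M + 1) := by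
            rw [← e3]
            ring
        _ ≤ (M + 1 + 1 + K) * (M + 1 + K).choose (M + 1) := le_rfl
  obtain ⟨V, hV, hVc⟩ := Finset.exists_subset_card_eq hLV
  -- growth of `V`
  have hVle : V.card ≤ (M + (K + 1)).choose M := by
    rw [hVc]
    refine hLs.trans ?_
    have e3 := Nat.choose_succ_right_eq (M + 1 + K) M
    have hKM : K + 1 ≤ M + 1 := by
      have : 2 * (K + 1 + 1) * (K + 1 + 2) ≤ M + 1 + 2 := hK
      nlinarith
    rw [show M + 1 + K - M = K + 1 by omega] at e3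
    have e4 : (M + 1 + K).choose (M + 1) * (M + 1) ≤ (M + 1 + K).choose M * (M + 1) := by
      rw [e3]
      exact Nat.mul_le_mul_left _ hKM
    have e5 := Nat.le_of_mul_le_mul_right e4 (by omega)
    rwa [show M + (K + 1) = M + 1 + K by ring]
  let D : Finset (Fin (M + 1) → ℕ) :=
    (V ×ˢ (univ : Finset (Fin (M + 1)))).image (fun p => p.1 + Pi.single p.2 1 + Pi.single p.2 1)
  have hD : D.card ≤ (M + 1) * L := by
    refine card_image_le.trans ?_
    rw [card_product, hVc, card_univ, Fintype.card_fin, mul_comm]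
  have hiii := homog_two h1 V (E ∪ D) (by
    intro a ha i k
    by_cases hik : i = k
    · subst hik
      exact mem_union_right _ (mem_image.2 ⟨(a, i), mem_product.2 ⟨ha, mem_univ _⟩, rfl⟩)
    · refine mem_union_left _ ?_
      obtain ⟨μ, hμ, δ, hδ, rfl⟩ := (hTh _ _).1 (hV ha)
      have e1 := hE μ hμ (δ + Pi.single i 1 + Pi.single k 1) (by
        simp only [Pi.add_apply, sum_add_distrib]
        rw [Finset.sum_pi_single' i 1 univ, Finset.sum_pi_single' k 1 univ]
        simp only [mem_univ, if_true]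
        omega) ⟨i, k, hik, by simp, by simp⟩
      have e2 : (fun l => μ l.succ + δ l) + Pi.single i 1 + Pi.single k 1
          = fun l => μ l.succ + (δ + Pi.single i 1 + Pi.single k 1 : Fin (M + 1) → ℕ) l := by
        funext l
        simp only [Pi.add_apply]
        ring
      rw [e2]
      exact e1) hVle
  rw [hVc] at hiii
  have hU : (E ∪ D).card ≤ E.card + (M + 1) * L :=
    (card_union_le _ _).trans (Nat.add_le_add_left hD _)
  -- arithmetic
  generalize (T 1).card = t1 at hi hii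
  generalize ∑ k ∈ range p, (T (k + 1)).card = S at hi
  generalize E.card = X at hU
  generalize (E ∪ D).card = Y at hiii hU
  have f1 : (M + 3) * ((M + 2) * S) ≤ (M + 3 + K) * (M + 2 + K) * L := by
    calc (M + 3) * ((M + 2) * S) = (M + 2) * ((M + 1 + 1 + 1) * S) := by ring
      _ ≤ (M + 2) * ((M + 1 + 1 + 1 + K) * t1) := Nat.mul_le_mul_left _ hi
      _ = (M + 3 + K) * ((M + 1 + 1) * t1) := by ring
      _ ≤ (M + 3 + K) * ((M + 1 + 1 + K) * L) := Nat.mul_le_mul_left _ hii
      _ = (M + 3 + K) * (M + 2 + K) * L := by ring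
  have f2 : (M + 3 + K) * (M + 2 + K) * L ≤ (K + 2) * (K + 3) * (X + (M + 1) * L) := by
    calc (M + 3 + K) * (M + 2 + K) * L = (M + 1 + (K + 1)) * (M + 2 + (K + 1)) * L := by ring
      _ ≤ (1 + (K + 1)) * (2 + (K + 1)) * Y := hiii
      _ ≤ (1 + (K + 1)) * (2 + (K + 1)) * (X + (M + 1) * L) := Nat.mul_le_mul_left _ hU
      _ = (K + 2) * (K + 3) * (X + (M + 1) * L) := by ring
  have f3 : 2 * ((K + 2) * (K + 3)) ≤ M + 3 := by
    calc 2 * ((K + 2) * (K + 3)) = 2 * (K + 1 + 1) * (K + 1 + 2) := by ring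
      _ ≤ M + 1 + 2 := hK
      _ = M + 3 := by ring
  have hcpos : 0 < (K + 2) * (K + 3) := by positivity
  generalize (K + 2) * (K + 3) = c at f2 f3 hcpos
  have f4 : (M + 3) * (M + 1) ≤ (M + 3 + K) * (M + 2 + K) := by nlinarith
  generalize (M + 3 + K) * (M + 2 + K) = Q at f1 f2 f4
  have g1 : 2 * (c * (Q * L)) ≤ c * ((M + 3) * X) + c * (Q * L) := by
    calc 2 * (c * (Q * L)) = (2 * c) * (Q * L) := by ring
      _ ≤ (M + 3) * (Q * L) := Nat.mul_le_mul_right _ f3
      _ ≤ (M + 3) * (c * (X + (M + 1) * L)) := Nat.mul_le_mul_left _ f2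
      _ = c * ((M + 3) * X) + c * ((M + 3) * (M + 1) * L) := by ring
      _ ≤ c * ((M + 3) * X) + c * (Q * L) :=
        Nat.add_le_add_left (Nat.mul_le_mul_left _ (Nat.mul_le_mul_right _ f4)) _
  have g2 : c * (Q * L) ≤ c * ((M + 3) * X) := by omega
  have g3 : Q * L ≤ (M + 3) * X := Nat.le_of_mul_le_mul_left g2 hcpos
  have g4 : (M + 3) * ((M + 2) * S) ≤ (M + 3) * X := f1.trans g3
  exact Nat.le_of_mul_le_mul_left g4 (by omega)

end Helper35.BallK
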