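import Pool.Agent.Helper38.D.Form

/-!
The dual form of the count of orthogonal frames.
-/

namespace Helper35.BallT

open Helper38.BallD

lemma finrank_frame {N m a : ℕ} {e : Fin (N + 1) → ℂ} (he : e ≠ 0) (h : form e e = 0)
    (S : Fin m → Submodule ℂ (Fin (N + 1) → ℂ))
    (hSe : ∀ i, ∀ u ∈ S i, form u e = 0)
    (horth : ∀ i j, i ≠ j → ∀ u ∈ S i, ∀ v ∈ S j, form u v = 0)
    (hdim : ∀ i, a + 1 ≤ Module.finrank ℂ (S i)) :
    1 + m * a ≤ Module.finrank ℂ ((Submodule.span ℂ {e} ⊔ ⨆ i, S i : Submodule ℂ (Fin (N + 1) → ℂ))) := by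
  classical
  have h0 := null_zero_ne he h
  set W : Submodule ℂ (Fin (N + 1) → ℂ) := Submodule.span ℂ {e} ⊔ ⨆ i, S i with hW
  have heW : e ∈ W := Submodule.mem_sup_left (Submodule.mem_span_singleton_self e)
  have hSW : ∀ i, S i ≤ W := fun i => le_trans (le_iSup S i) le_sup_right
  set V : Fin m → Submodule ℂ (EuclideanSpace ℂ (Fin N)) := fun i => (S i).map (proj e) with hV
  have hfam : OrthogonalFamily ℂ (fun i => V i) fun i => (V i).subtypeₗᵢ := by
    intro i j hij v w
    obtain ⟨_, v, hv, rfl⟩ := v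
    obtain ⟨_, w, hw, rfl⟩ := w
    change inner ℂ (proj e v) (proj e w) = 0
    rw [proj_inner he h (hSe j w hw) (hSe i v hv)]
    exact horth j i (fun h => hij (by rw [h])) w hw v hv
  have hon := hfam.orthonormal_sigma_orthonormal (fun i => (stdOrthonormalBasis ℂ (V i)).orthonormal)
  have hli := hon.linearIndependent
  have hmem : ∀ x : (Σ i, Fin (Module.finrank ℂ (V i))),
      ((stdOrthonormalBasis ℂ (V x.1) x.2 : V x.1) : EuclideanSpace ℂ (Fin N)) ∈ W.map (proj e) := by
    intro x
    exact Submodule.map_mono (hSW x.1) (stdOrthonormalBasis ℂ (V x.1) x.2).2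
  have hli2 : LinearIndependent ℂ (fun x : (Σ i, Fin (Module.finrank ℂ (V i))) =>
      (⟨_, hmem x⟩ : W.map (proj e))) := LinearIndependent.of_comp (W.map (proj e)).subtype hli
  have hcard := hli2.fintype_card_le_finrank
  rw [Fintype.card_sigma] at hcard
  simp only [Fintype.card_fin] at hcard
  have h2 : ∀ i, a ≤ Module.finrank ℂ (V i) := by
    intro i
    have := finrank_proj he h0 (S i)
    have := hdim i
    have h4 : Module.finrank ℂ (V i) = Module.finrank ℂ ((S i).map (proj e)) := rfl
    omega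
  have h3 : ∑ _i : Fin m, a ≤ ∑ i, Module.finrank ℂ (V i) :=
    Finset.sum_le_sum fun i _ => h2 i
  rw [Finset.sum_const, Finset.card_univ, Fintype.card_fin, smul_eq_mul] at h3
  have h5 := LinearMap.finrank_range_add_finrank_ker ((proj e).domRestrict W)
  rw [LinearMap.range_domRestrict] at h5
  have h6 : 0 < Module.finrank ℂ (LinearMap.ker ((proj e).domRestrict W)) := by
    have hne : (⟨⟨e, heW⟩, proj_self h0⟩ : LinearMap.ker ((proj e).domRestrict W)) ≠ 0 := by
      intro hz
      apply he
      have := congrArg (fun z : LinearMap.ker ((proj e).domRestrict W) => ((z : W) : Fin (N + 1) → ℂ)) hz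
      simpa using this
    rw [Nat.pos_iff_ne_zero]
    intro hz
    have h7 := Submodule.finrank_eq_zero.1 hz
    apply hne
    apply Subtype.ext
    have h8 : (⟨e, heW⟩ : W) ∈ LinearMap.ker ((proj e).domRestrict W) := proj_self h0
    rw [h7, Submodule.mem_bot] at h8
    exact h8
  omega

lemma sg_mul_self (N : ℕ) (c : Fin (N + 1)) : sg N c * sg N c = 1 := by
  refine Fin.cases ?_ (fun j => ?_) c <;> simp [sg]

theorem count_dual {N m a : ℕ} {e : Fin (N + 1) → ℂ} (he : e ≠ 0) (h : form e e = 0)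
    (S : Fin m → Submodule ℂ (Fin (N + 1) → ℂ)) (heS : ∀ i, e ∈ S i)
    (hSe : ∀ i, ∀ u ∈ S i, form u e = 0)
    (horth : ∀ i j, i ≠ j → ∀ u ∈ S i, ∀ v ∈ S j, form u v = 0)
    (hdim : ∀ i, a + 1 ≤ Module.finrank ℂ (S i)) :
    ∃ v : Fin (1 + m * a) → Fin (N + 1) → ℂ, ∀ b : Fin (1 + m * a) → ℂ,
      form (∑ j, b j • v j) e = 0 → (∀ i, ∀ w ∈ S i, form (∑ j, b j • v j) w = 0) → b = 0 := by
  classical
  clear heS
  have hk := finrank_frame he h S hSe horth hdim
  set W : Submodule ℂ (Fin (N + 1) → ℂ) := Submodule.span ℂ {e} ⊔ ⨆ i, S i with hW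
  set B := Module.finBasis ℂ W with hB
  set w : Fin (1 + m * a) → Fin (N + 1) → ℂ := fun j => ((B (Fin.castLE hk j) : W) : Fin (N + 1) → ℂ)
    with hw
  have hwW : ∀ j, w j ∈ W := fun j => (B (Fin.castLE hk j)).2
  have hwli : LinearIndependent ℂ w := by
    have h1 := B.linearIndependent.comp _ (Fin.castLE_injective hk)
    exact h1.map' W.subtype (Submodule.ker_subtype W)
  refine ⟨fun j c => sg N c * w j c, fun b hbe hbS => ?_⟩
  set u : Fin (N + 1) → ℂ := ∑ j, b j • (fun c => sg N c * w j c) with hu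
  set x : Fin (N + 1) → ℂ := ∑ j, b j • w j with hx
  have hux : ∀ c, u c = sg N c * x c := by
    intro c
    rw [hu, hx, Finset.sum_apply, Finset.sum_apply, Finset.mul_sum]
    exact Finset.sum_congr rfl fun j _ => by
      simp only [Pi.smul_apply, smul_eq_mul]
      ring
  have hxW : x ∈ W := Submodule.sum_mem _ fun j _ => Submodule.smul_mem _ _ (hwW j)
  let Z : Submodule ℂ (Fin (N + 1) → ℂ) :=
    { carrier := {y | form u y = 0}
      add_mem' := by
        intro y z hy hz
        simp only [Set.mem_ofPred_eq] at *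
        rw [form_add_right, hy, hz, add_zero]
      zero_mem' := by
        simp [form]
      smul_mem' := by
        intro c y hy
        simp only [Set.mem_ofPred_eq] at *
        rw [form_smul_right, hy, mul_zero] }
  have hWZ : W ≤ Z := by
    rw [hW]
    refine sup_le ?_ (iSup_le fun i y hy => hbS i y hy)
    rw [Submodule.span_singleton_le_iff_mem]
    exact hbe
  have hxx : form u x = 0 := hWZ hxW
  have hsum : ∑ c, Complex.normSq (x c) = 0 := by
    have h1 : ((∑ c, Complex.normSq (x c) : ℝ) : ℂ) = form u x := by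
      rw [Complex.ofReal_sum]
      unfold form
      refine Finset.sum_congr rfl fun c _ => ?_
      rw [hux c, ← mul_assoc, sg_mul_self, one_mul, Complex.mul_conj]
    rw [hxx] at h1
    exact_mod_cast h1
  have hx0 : x = 0 := by
    funext c
    have h2 := (Finset.sum_eq_zero_iff_of_nonneg (fun c _ => Complex.normSq_nonneg (x c))).1 hsum c
      (Finset.mem_univ c)
    exact Complex.normSq_eq_zero.1 h2
  funext j
  exact Fintype.linearIndependent_iff.1 hwli b hx0 j

end Helper35.BallT
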